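import Pool.Agent.K1H37.HYC.Tail

/-!
# PART: uniform random cells
-/

set_option autoImplicit false
open Classical Finset

namespace Pool.Agent.K1H37.HYC

open Pool.Agent.K1H34.HYC Pool.Agent.Helper635.LLL

theorem t_PART : S_PART := by
  intro K hK
  obtain ⟨D0, hD0⟩ := Filter.eventually_atTop.1 (ev1 (4 * K))
  refine ⟨max D0 1, ?_⟩
  intro D hD X J _ _ w B hB hw hsup hdeg
  have hD1 : 1 ≤ D := (le_max_right _ _).trans hD
  have hDD := hD0 D ((le_max_left _ _).trans hD)
  haveI : Nonempty (Fin K) := ⟨⟨0, hK⟩⟩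
  have hlog : 0 ≤ Real.log D := Real.log_natCast_nonneg D
  obtain ⟨c, hc⟩ := lll (ι := J × Fin K) (univ : Finset (J × Fin K))
    (fun o (c : X → Fin K) => (∑ x, w o.1 x) / K + Real.sqrt (B * ∑ x, w o.1 x) * Real.log D <
      ∑ x ∈ univ.filter (fun x => c x = o.2), w o.1 x)
    (fun o => univ.filter (fun x => w o.1 x ≠ 0))
    (fun o _ => lin_dep K o.2 (w o.1) _)
    (Real.exp (-(Real.log D) ^ 2 / 2)) (K * D ^ 8) (Real.exp_pos _).le
    (fun o _ => lin_tail K hK o.2 (w o.1) B hB (hw o.1) (Real.log D) hlog)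
    (by
      intro o _
      have hsub : univ.filter (fun o' : J × Fin K => ¬ Disjoint
          (univ.filter (fun x => w o.1 x ≠ 0)) (univ.filter (fun x => w o'.1 x ≠ 0))) ⊆
          ((univ.filter (fun x => w o.1 x ≠ 0)).biUnion
            (fun x => univ.filter (fun j => w j x ≠ 0))) ×ˢ (univ : Finset (Fin K)) := by
        intro o' ho'
        rw [mem_filter, Finset.not_disjoint_iff] at ho'
        obtain ⟨x, hx1, hx2⟩ := ho'.2
        rw [mem_product, mem_biUnion]
        refine ⟨⟨x, hx1, ?_⟩, mem_univ _⟩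
        rw [mem_filter] at hx2 ⊢
        exact ⟨mem_univ _, hx2.2⟩
      refine (Finset.card_le_card hsub).trans ?_
      rw [card_product, card_univ, Fintype.card_fin, mul_comm]
      refine Nat.mul_le_mul_left K (Finset.card_biUnion_le.trans ?_)
      refine (Finset.sum_le_sum (fun x _ => hdeg x)).trans ?_
      rw [Finset.sum_const, smul_eq_mul]
      refine (Nat.mul_le_mul_right _ (hsup o.1)).trans (le_of_eq ?_)
      rw [← pow_add])
    (by
      push_cast
      linarith)
    (Nat.one_le_iff_ne_zero.2 (by positivity)) Fintype.card_pos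
  refine ⟨c, fun j t => ?_⟩
  exact not_lt.1 (hc (j, t) (mem_univ _))

end Pool.Agent.K1H37.HYC
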