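import Pool.Agent.K1H37.HYC.Tail

/-!
# SUB: a random subset
-/

set_option autoImplicit false
open Classical Finset

namespace Pool.Agent.K1H37.HYC

open Pool.Agent.K1H34.HYC Pool.Agent.Helper635.LLL

/-- pairs inside a random subset -/
theorem np_sub {X : Type} [Fintype X] (G : SimpleGraph X) (S : Finset X) (v : X)
    (Q : X → Prop) [DecidablePred Q] :
    np G (S.filter (fun x => Q x)) v = (np G S v).filter (fun z => Q z.1 ∧ Q z.2) := by
  ext z
  simp only [np, mem_filter, mem_product]
  tauto

theorem t_SUB : S_SUB := by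
  intro k b
  set K : ℕ := 2 ^ k with hKdef
  have hK : 1 ≤ K := Nat.one_le_two_pow
  have hKr : (K : ℝ) = 2 ^ k := by rw [hKdef]; push_cast; rfl
  have hKpos : (0 : ℝ) < K := by exact_mod_cast hK
  set cc : ℝ := 1 / (2 ^ (2 * b + 5) * (K : ℝ) ^ 4) with hcc
  have hccpos : 0 < cc := by positivity
  obtain ⟨D0, hD0⟩ := Filter.eventually_atTop.1 (ev1 16)
  obtain ⟨D1, hD1⟩ := Filter.eventually_atTop.1 (ev2 16 cc hccpos)
  refine ⟨max (max D0 D1) 1, ?_⟩
  intro D hD X J _ _ G S Sst w B hB hw hsup hdegw hdeg hnp
  have hDge : 1 ≤ D := (le_max_right _ _).trans hD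
  have hDD0 := hD0 D (((le_max_left _ _).trans (le_max_left _ _)).trans hD)
  have hDD1 := hD1 D (((le_max_right _ _).trans (le_max_left _ _)).trans hD)
  set t : Fin K := ⟨0, hK⟩ with ht
  haveI : Nonempty (Fin K) := ⟨t⟩
  have hlog : 0 ≤ Real.log D := Real.log_natCast_nonneg D
  have hcardpos : (0 : ℝ) < (Fintype.card (X → Fin K) : ℝ) := by
    exact_mod_cast Fintype.card_pos
  let Bad : J ⊕ X → (X → Fin K) → Prop := fun o c => match o with
    | Sum.inl j => (∑ x, w j x) / K + Real.sqrt (B * ∑ x, w j x) * Real.log D <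
      ∑ x ∈ univ.filter (fun x => c x = t), w j x
    | Sum.inr v => (((np G S v).filter (fun z => c z.1 = t ∧ c z.2 = t)).card : ℝ) <
      (np G S v).card / (2 * (K : ℝ) ^ 2)
  let Sup : J ⊕ X → Finset X := fun o => match o with
    | Sum.inl j => univ.filter (fun x => w j x ≠ 0)
    | Sum.inr v => univ.filter (fun y => G.Adj v y)
  let II : Finset (J ⊕ X) := univ.filter (fun o => match o with
    | Sum.inl _ => True
    | Sum.inr v => v ∈ Sst)
  have hD4 : D ≤ D ^ 4 := by
    calc D = D ^ 1 := (pow_one D).symm
      _ ≤ D ^ 4 := Nat.pow_le_pow_right hDge (by norm_num)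
  have hSupcard : ∀ o, (Sup o).card ≤ D ^ 4 := by
    intro o
    rcases o with j | v
    · exact hsup j
    · exact (hdeg v).trans hD4
  have hSupdeg : ∀ x, (univ.filter (fun o : J ⊕ X => x ∈ Sup o)).card ≤ 2 * D ^ 4 := by
    intro x
    have hsub : univ.filter (fun o : J ⊕ X => x ∈ Sup o) ⊆
        (univ.filter (fun j => w j x ≠ 0)).image Sum.inl ∪
        (univ.filter (fun y => G.Adj x y)).image Sum.inr := by
      intro o ho
      rw [mem_filter] at ho
      rcases o with j | v
      · refine mem_union_left _ (mem_image_of_mem _ ?_)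
        have := ho.2
        simp only [Sup, mem_filter] at this
        rw [mem_filter]
        exact ⟨mem_univ _, this.2⟩
      · refine mem_union_right _ (mem_image_of_mem _ ?_)
        have := ho.2
        simp only [Sup, mem_filter] at this
        rw [mem_filter]
        exact ⟨mem_univ _, this.2.symm⟩
    refine (Finset.card_le_card hsub).trans ((Finset.card_union_le _ _).trans ?_)
    have e1 := (Finset.card_image_le (s := univ.filter (fun j => w j x ≠ 0))
      (f := (Sum.inl : J → J ⊕ X))).trans (hdegw x)
    have e2 := (Finset.card_image_le (s := univ.filter (fun y => G.Adj x y))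
      (f := (Sum.inr : X → J ⊕ X))).trans ((hdeg x).trans hD4)
    omega
  obtain ⟨c, hc⟩ := lll (ι := J ⊕ X) II Bad Sup
    (by
      intro o _
      rcases o with j | v
      · exact lin_dep K t (w j) _
      · intro c c' h hc
        have : (np G S v).filter (fun z => c' z.1 = t ∧ c' z.2 = t) =
            (np G S v).filter (fun z => c z.1 = t ∧ c z.2 = t) := by
          refine Finset.filter_congr fun z hz => ?_
          rw [np, mem_filter] at hz
          rw [h z.1 (by simp only [Sup, mem_filter]; exact ⟨mem_univ _, hz.2.1⟩),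
            h z.2 (by simp only [Sup, mem_filter]; exact ⟨mem_univ _, hz.2.2.1⟩)]
        change (((np G S v).filter (fun z => c' z.1 = t ∧ c' z.2 = t)).card : ℝ) <
          (np G S v).card / (2 * (K : ℝ) ^ 2)
        rw [this]
        exact hc)
    (Real.exp (-(Real.log D) ^ 2 / 2) + Real.exp (-(cc * D))) (2 * D ^ 8)
    (by positivity)
    (by
      intro o ho
      rcases o with j | v
      · refine (lin_tail K hK t (w j) B hB (hw j) (Real.log D) hlog).trans ?_
        refine mul_le_mul_of_nonneg_right ?_ hcardpos.le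
        linarith [Real.exp_pos (-(cc * D))]
      · have hv : v ∈ Sst := by
          simp only [II, mem_filter] at ho
          exact ho.2
        refine (quad_tail G D K b hDge hK t S v (hdeg v) (hnp v hv)).trans ?_
        refine mul_le_mul_of_nonneg_right ?_ hcardpos.le
        linarith [Real.exp_pos (-(Real.log D) ^ 2 / 2)])
    (by
      intro o _
      have hsub : II.filter (fun o' => ¬ Disjoint (Sup o) (Sup o')) ⊆
          (Sup o).biUnion (fun x => univ.filter (fun o' : J ⊕ X => x ∈ Sup o')) := by
        intro o' ho'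
        rw [mem_filter, Finset.not_disjoint_iff] at ho'
        obtain ⟨x, hx1, hx2⟩ := ho'.2
        rw [mem_biUnion]
        refine ⟨x, hx1, ?_⟩
        rw [mem_filter]
        exact ⟨mem_univ _, hx2⟩
      refine (Finset.card_le_card hsub).trans (Finset.card_biUnion_le.trans ?_)
      refine (Finset.sum_le_sum (fun x _ => hSupdeg x)).trans ?_
      rw [Finset.sum_const, smul_eq_mul]
      refine (Nat.mul_le_mul_right _ (hSupcard o)).trans (le_of_eq ?_)
      ring)
    (by
      push_cast
      nlinarith)
    (Nat.one_le_iff_ne_zero.2 (by positivity)) Fintype.card_pos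
  refine ⟨S.filter (fun x => c x = t), Finset.filter_subset _ _, ?_, ?_⟩
  · intro j
    have h1 := not_lt.1 (hc (Sum.inl j) (by simp [II]))
    rw [hKr] at h1
    refine le_trans ?_ h1
    refine Finset.sum_le_sum_of_subset_of_nonneg ?_ (fun x _ _ => (hw j x).1)
    intro x hx
    rw [mem_filter] at hx ⊢
    exact ⟨mem_univ _, hx.2⟩
  · intro v hv
    have h1 := not_lt.1 (hc (Sum.inr v) (by simp only [II, mem_filter]; exact ⟨mem_univ _, hv⟩))
    rw [np_sub G S v (fun x => c x = t)]
    refine le_trans (le_of_eq ?_) h1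
    rw [hKr]
    congr 1
    rw [pow_add, pow_one, mul_comm 2 k, pow_mul]
    ring

end Pool.Agent.K1H37.HYC
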