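import Pool.Agent.K1H34.HYC.Stm
import Pool.Agent.Helper635.LLL
import Pool.Agent.QCube.Lll

/-!
# Tail bounds for random cells
-/

set_option autoImplicit false
open Classical Finset

namespace Pool.Agent.K1H37.HYC

open Pool.Agent.K1H34.HYC Pool.Agent.Helper635.LLL

theorem ev1 (M : ℝ) : ∀ᶠ D : ℕ in Filter.atTop,
    M * (D : ℝ) ^ 8 * Real.exp (-(Real.log D) ^ 2 / 2) ≤ 1 := by
  have h1 : Filter.Tendsto (fun D : ℕ => Real.log (D : ℝ)) Filter.atTop Filter.atTop :=
    Real.tendsto_log_atTop.comp tendsto_natCast_atTop_atTop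
  filter_upwards [h1.eventually_ge_atTop 18, h1.eventually_ge_atTop (Real.log (max M 1)),
    Filter.eventually_ge_atTop 1] with D hD1 hD2 hD3
  have hDpos : (0 : ℝ) < D := by exact_mod_cast hD3
  have hM : (0 : ℝ) < max M 1 := lt_of_lt_of_le one_pos (le_max_right _ _)
  have e1 : (D : ℝ) ^ 8 = Real.exp (8 * Real.log D) := by
    rw [mul_comm, Real.exp_mul, Real.exp_log hDpos]
    norm_cast
  have e2 : max M 1 = Real.exp (Real.log (max M 1)) := (Real.exp_log hM).symm
  calc M * (D : ℝ) ^ 8 * Real.exp (-(Real.log D) ^ 2 / 2)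
      ≤ max M 1 * (D : ℝ) ^ 8 * Real.exp (-(Real.log D) ^ 2 / 2) := by
        gcongr
        exact le_max_left _ _
    _ = Real.exp (Real.log (max M 1) + 8 * Real.log D + -(Real.log D) ^ 2 / 2) := by
        rw [Real.exp_add, Real.exp_add, ← e1, ← e2]
    _ ≤ 1 := by
        rw [Real.exp_le_one_iff]
        nlinarith

theorem ev2 (M c : ℝ) (hc : 0 < c) : ∀ᶠ D : ℕ in Filter.atTop,
    M * (D : ℝ) ^ 8 * Real.exp (-(c * D)) ≤ 1 := by
  have h1 : Filter.Tendsto (fun D : ℕ => c * (D : ℝ)) Filter.atTop Filter.atTop :=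
    tendsto_natCast_atTop_atTop.const_mul_atTop hc
  have h2 := (Real.tendsto_pow_mul_exp_neg_atTop_nhds_zero 8).comp h1
  have h3 := h2.const_mul (M / c ^ 8)
  rw [mul_zero] at h3
  filter_upwards [h3.eventually_le_const one_pos] with D hD
  refine le_trans (le_of_eq ?_) hD
  simp only [Function.comp]
  field_simp

variable {X : Type} [Fintype X]

/-- number of assignments with prescribed constant value on `A` -/
theorem card_const (K : ℕ) (A : Finset X) (t : Fin K) :
    (univ.filter (fun c : X → Fin K => ∀ x ∈ A, c x = t)).card * K ^ A.card =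
      K ^ Fintype.card X := by
  have h1 : univ.filter (fun c : X → Fin K => ∀ x ∈ A, c x = t) =
      Fintype.piFinset (fun x => if x ∈ A then ({t} : Finset (Fin K)) else univ) := by
    ext c
    rw [Fintype.mem_piFinset, mem_filter]
    constructor
    · rintro ⟨-, h⟩ x
      by_cases hx : x ∈ A
      · rw [if_pos hx, mem_singleton]; exact h x hx
      · rw [if_neg hx]; exact mem_univ _
    · intro h
      refine ⟨mem_univ _, fun x hx => ?_⟩
      have := h x
      rw [if_pos hx, mem_singleton] at this
      exact this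
  have h2 : ∀ x : X, (if x ∈ A then ({t} : Finset (Fin K)) else univ).card =
      if x ∈ A then 1 else K := by
    intro x
    split_ifs
    · simp
    · simp
  have h3 : (univ.filter (fun x : X => x ∈ A)) = A := by ext x; simp
  have h4 : A.card + (univ.filter (fun x : X => x ∉ A)).card = Fintype.card X := by
    have := Finset.card_filter_add_card_filter_not (s := (univ : Finset X)) (fun x : X => x ∈ A)
    rw [h3] at this
    rw [this, card_univ]
  rw [h1, Fintype.card_piFinset, Finset.prod_congr rfl (fun x _ => h2 x), Finset.prod_ite,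
    Finset.prod_const_one, one_mul, Finset.prod_const, ← pow_add, add_comm, h4]

/-- the mean of a linear statistic -/
theorem mean_lin (K : ℕ) (hK : 1 ≤ K) (t : Fin K) (w : X → ℝ) :
    ∑ c : X → Fin K, ∑ x ∈ univ.filter (fun x => c x = t), w x =
      (∑ x, w x) / K * (Fintype.card (X → Fin K) : ℝ) := by
  have hKpos : (0 : ℝ) < K := by exact_mod_cast hK
  have h1 : ∀ x, (((univ.filter (fun c : X → Fin K => c x = t)).card : ℕ) : ℝ) * K =
      (Fintype.card (X → Fin K) : ℝ) := by
    intro x
    have := card_const K {x} t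
    simp only [mem_singleton, forall_eq, card_singleton, pow_one] at this
    have e : Fintype.card (X → Fin K) = K ^ Fintype.card X := by
      rw [Fintype.card_fun, Fintype.card_fin]
    rw [e, ← this]
    push_cast
    rfl
  calc ∑ c : X → Fin K, ∑ x ∈ univ.filter (fun x => c x = t), w x
      = ∑ c : X → Fin K, ∑ x, (if c x = t then w x else 0) := by
        refine Finset.sum_congr rfl fun c _ => ?_
        rw [Finset.sum_filter]
    _ = ∑ x, ∑ c : X → Fin K, (if c x = t then w x else 0) := Finset.sum_comm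
    _ = ∑ x, w x / K * (Fintype.card (X → Fin K) : ℝ) := by
        refine Finset.sum_congr rfl fun x _ => ?_
        rw [← Finset.sum_filter, Finset.sum_const, nsmul_eq_mul, ← h1 x]
        field_simp
    _ = _ := by rw [← Finset.sum_mul, ← Finset.sum_div]

/-- Hoeffding bound for a linear statistic -/
theorem lin_tail (K : ℕ) (hK : 1 ≤ K) (t : Fin K) (w : X → ℝ) (B : ℝ) (hB : 0 < B)
    (hw : ∀ x, 0 ≤ w x ∧ w x ≤ B) (L : ℝ) (hL : 0 ≤ L) :
    (cnt (fun c : X → Fin K => (∑ x, w x) / K + Real.sqrt (B * ∑ x, w x) * L <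
      ∑ x ∈ univ.filter (fun x => c x = t), w x) : ℝ) ≤
      Real.exp (-L ^ 2 / 2) * (Fintype.card (X → Fin K) : ℝ) := by
  have hKpos : (0 : ℝ) < K := by exact_mod_cast hK
  have hW0 : 0 ≤ ∑ x, w x := Finset.sum_nonneg fun x _ => (hw x).1
  rcases hW0.eq_or_lt with hW | hW
  · have hz : ∀ x, w x = 0 := by
      intro x
      exact (Finset.sum_eq_zero_iff_of_nonneg (fun x _ => (hw x).1)).1 hW.symm x (mem_univ x)
    have : cnt (fun c : X → Fin K => (∑ x, w x) / K + Real.sqrt (B * ∑ x, w x) * L <
      ∑ x ∈ univ.filter (fun x => c x = t), w x) = 0 := by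
      rw [cnt, Finset.card_eq_zero, Finset.eq_empty_iff_forall_notMem]
      intro c hc
      rw [mem_ev] at hc
      simp [hz] at hc
    rw [this]
    have h2 : (0 : ℝ) ≤ (Fintype.card (X → Fin K) : ℝ) := Nat.cast_nonneg _
    rw [Nat.cast_zero]
    exact mul_nonneg (Real.exp_pos _).le h2
  · haveI : Nonempty (Fin K) := ⟨t⟩
    have hV0 : 0 < B * ∑ x, w x := mul_pos hB hW
    have hV : ∑ x, w x ^ 2 ≤ B * ∑ x, w x := by
      rw [Finset.mul_sum]
      refine Finset.sum_le_sum fun x _ => ?_
      rw [sq]
      exact mul_le_mul_of_nonneg_right (hw x).2 (hw x).1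
    have hmc := Pool.Agent.QCube.mcd_upper
      (fun c : X → Fin K => ∑ x ∈ univ.filter (fun x => c x = t), w x) w (fun x => (hw x).1)
      (by
        intro i s s' hs
        simp only [Finset.sum_filter]
        rw [← Finset.sum_sub_distrib, Finset.sum_eq_single i]
        · split_ifs
          · simp [(hw i).1]
          · simp [abs_of_nonneg (hw i).1]
          · simp [abs_of_nonneg (hw i).1]
          · simp [(hw i).1]
        · intro j _ hj
          rw [hs j hj, sub_self]
        · intro h; exact absurd (mem_univ i) h)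
      (B * ∑ x, w x) (Real.sqrt (B * ∑ x, w x) * L) hV hV0
      (mul_nonneg (Real.sqrt_nonneg _) hL)
    have hcardpos : (0 : ℝ) < (Fintype.card (X → Fin K) : ℝ) := by
      exact_mod_cast Fintype.card_pos
    rw [mean_lin K hK t w, mul_div_cancel_right₀ _ hcardpos.ne'] at hmc
    have he : -((Real.sqrt (B * ∑ x, w x) * L) ^ 2) / (2 * (B * ∑ x, w x)) = -L ^ 2 / 2 := by
      rw [mul_pow, Real.sq_sqrt hV0.le]
      field_simp
    rw [he] at hmc
    refine le_trans ?_ hmc
    rw [cnt]
    have : (ev (fun c : X → Fin K => (∑ x, w x) / K + Real.sqrt (B * ∑ x, w x) * L <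
      ∑ x ∈ univ.filter (fun x => c x = t), w x)).card ≤
      (univ.filter (fun s : X → Fin K => (∑ x, w x) / K + Real.sqrt (B * ∑ x, w x) * L ≤
        ∑ x ∈ univ.filter (fun x => s x = t), w x)).card := by
      refine Finset.card_le_card fun s hs => ?_
      rw [mem_ev] at hs
      rw [mem_filter]
      exact ⟨mem_univ _, hs.le⟩
    exact_mod_cast this

/-- support of the dependence of the linear events -/
theorem lin_dep (K : ℕ) (t : Fin K) (w : X → ℝ) (a : ℝ) :
    Pool.Agent.Helper635.LLL.DependsOn (fun c : X → Fin K => a < ∑ x ∈ univ.filter (fun x => c x = t), w x)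
      (univ.filter (fun x => w x ≠ 0)) := by
  intro c c' h hc
  have : ∑ x ∈ univ.filter (fun x => c' x = t), w x =
      ∑ x ∈ univ.filter (fun x => c x = t), w x := by
    simp only [Finset.sum_filter]
    refine Finset.sum_congr rfl fun x _ => ?_
    by_cases hx : w x = 0
    · simp [hx]
    · rw [h x (by rw [mem_filter]; exact ⟨mem_univ _, hx⟩)]
  rw [this]; exact hc

/-- lower tail for the number of pairs inside a random set -/
theorem quad_tail (G : SimpleGraph X) (D K b : ℕ) (hD : 1 ≤ D) (hK : 1 ≤ K) (t : Fin K)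
    (S : Finset X) (v : X) (hdeg : dg G univ v ≤ D)
    (hm : (D : ℝ) ^ 2 / 2 ^ b ≤ (np G S v).card) :
    (cnt (fun c : X → Fin K => (((np G S v).filter (fun z => c z.1 = t ∧ c z.2 = t)).card : ℝ) <
      (np G S v).card / (2 * (K : ℝ) ^ 2)) : ℝ) ≤
      Real.exp (-(1 / (2 ^ (2 * b + 5) * (K : ℝ) ^ 4) * D)) * (Fintype.card (X → Fin K) : ℝ) := by
  have hKpos : (0 : ℝ) < K := by exact_mod_cast hK
  have hDpos : (0 : ℝ) < D := by exact_mod_cast hD
  haveI : Nonempty (Fin K) := ⟨t⟩
  have hcardpos : (0 : ℝ) < (Fintype.card (X → Fin K) : ℝ) := by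
    exact_mod_cast Fintype.card_pos
  set m : ℝ := ((np G S v).card : ℝ) with hmdef
  have hNv : (univ.filter (fun y => G.Adj v y)).card ≤ D := hdeg
  -- mean
  have hmean : ∑ c : X → Fin K, (((np G S v).filter (fun z => c z.1 = t ∧ c z.2 = t)).card : ℝ) =
      m / K ^ 2 * (Fintype.card (X → Fin K) : ℝ) := by
    have h1 : ∀ z ∈ np G S v,
        (((univ.filter (fun c : X → Fin K => c z.1 = t ∧ c z.2 = t)).card : ℕ) : ℝ) * K ^ 2 =
        (Fintype.card (X → Fin K) : ℝ) := by
      intro z hz
      have hne : z.1 ≠ z.2 := by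
        rw [np, mem_filter] at hz
        exact hz.2.2.2.1
      have := card_const K {z.1, z.2} t
      rw [Finset.card_pair hne] at this
      simp only [mem_insert, mem_singleton, forall_eq_or_imp, forall_eq] at this
      have e : Fintype.card (X → Fin K) = K ^ Fintype.card X := by
        rw [Fintype.card_fun, Fintype.card_fin]
      rw [e, ← this]
      push_cast
      rfl
    calc ∑ c : X → Fin K, (((np G S v).filter (fun z => c z.1 = t ∧ c z.2 = t)).card : ℝ)
        = ∑ c : X → Fin K, ∑ z ∈ np G S v, (if c z.1 = t ∧ c z.2 = t then (1 : ℝ) else 0) := by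
          refine Finset.sum_congr rfl fun c _ => ?_
          rw [← Finset.sum_filter, Finset.sum_const, nsmul_eq_mul, mul_one]
      _ = ∑ z ∈ np G S v, ∑ c : X → Fin K, (if c z.1 = t ∧ c z.2 = t then (1 : ℝ) else 0) :=
          Finset.sum_comm
      _ = ∑ z ∈ np G S v, 1 / (K : ℝ) ^ 2 * (Fintype.card (X → Fin K) : ℝ) := by
          refine Finset.sum_congr rfl fun z hz => ?_
          rw [← Finset.sum_filter, Finset.sum_const, nsmul_eq_mul, mul_one, ← h1 z hz]
          field_simp
      _ = _ := by
          rw [Finset.sum_const, nsmul_eq_mul]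
          ring
  -- bounded differences
  have hdiff : ∀ i, ∀ s s' : X → Fin K, (∀ j, j ≠ i → s j = s' j) →
      ((np G S v).filter (fun z => s z.1 = t ∧ s z.2 = t)).card ≤
      ((np G S v).filter (fun z => s' z.1 = t ∧ s' z.2 = t)).card +
        (if G.Adj v i then 2 * D else 0) := by
    intro i s s' hs
    have h1 : ((np G S v).filter (fun z => s z.1 = t ∧ s z.2 = t)) ⊆
        ((np G S v).filter (fun z => s' z.1 = t ∧ s' z.2 = t)) ∪
          ((np G S v).filter (fun z => z.1 = i) ∪ (np G S v).filter (fun z => z.2 = i)) := by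
      intro z hz
      rw [mem_filter] at hz
      by_cases h1 : z.1 = i
      · refine mem_union_right _ (mem_union_left _ ?_)
        rw [mem_filter]; exact ⟨hz.1, h1⟩
      by_cases h2 : z.2 = i
      · refine mem_union_right _ (mem_union_right _ ?_)
        rw [mem_filter]; exact ⟨hz.1, h2⟩
      refine mem_union_left _ ?_
      rw [mem_filter]
      exact ⟨hz.1, by rw [← hs _ h1]; exact hz.2.1, by rw [← hs _ h2]; exact hz.2.2⟩
    have h2 : ((np G S v).filter (fun z => z.1 = i) ∪
        (np G S v).filter (fun z => z.2 = i)).card ≤ if G.Adj v i then 2 * D else 0 := by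
      split_ifs with hadj
      · refine (Finset.card_union_le _ _).trans ?_
        have e1 : ((np G S v).filter (fun z => z.1 = i)).card ≤ D := by
          refine le_trans (Finset.card_le_card_of_injOn (fun z => z.2)
            (t := univ.filter (fun y => G.Adj v y)) ?_ ?_) hNv
          · intro z hz
            rw [Finset.coe_filter, np] at hz
            have hz' := hz.1
            rw [mem_filter] at hz'
            rw [Finset.coe_filter]
            exact ⟨mem_univ _, hz'.2.2.1⟩
          · intro z hz z' hz' h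
            rw [Finset.coe_filter] at hz hz'
            exact Prod.ext (hz.2.trans hz'.2.symm) h
        have e2 : ((np G S v).filter (fun z => z.2 = i)).card ≤ D := by
          refine le_trans (Finset.card_le_card_of_injOn (fun z => z.1)
            (t := univ.filter (fun y => G.Adj v y)) ?_ ?_) hNv
          · intro z hz
            rw [Finset.coe_filter, np] at hz
            have hz' := hz.1
            rw [mem_filter] at hz'
            rw [Finset.coe_filter]
            exact ⟨mem_univ _, hz'.2.1⟩
          · intro z hz z' hz' h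
            rw [Finset.coe_filter] at hz hz'
            exact Prod.ext h (hz.2.trans hz'.2.symm)
        omega
      · rw [Nat.le_zero, Finset.card_eq_zero, Finset.eq_empty_iff_forall_notMem]
        intro z hz
        rw [mem_union, mem_filter, mem_filter] at hz
        rcases hz with ⟨hz1, hz2⟩ | ⟨hz1, hz2⟩
        · rw [np, mem_filter] at hz1
          rw [← hz2] at hadj
          exact hadj hz1.2.1
        · rw [np, mem_filter] at hz1
          rw [← hz2] at hadj
          exact hadj hz1.2.2.1
    exact (Finset.card_le_card h1).trans ((Finset.card_union_le _ _).trans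
      (Nat.add_le_add_left h2 _))
  have hmc := Pool.Agent.QCube.mcd_lower
    (fun c : X → Fin K => (((np G S v).filter (fun z => c z.1 = t ∧ c z.2 = t)).card : ℝ))
    (fun i => if G.Adj v i then 2 * (D : ℝ) else 0)
    (by intro i; split_ifs <;> positivity)
    (by
      intro i s s' hs
      have h1 := hdiff i s s' hs
      have h2 := hdiff i s' s (fun j hj => (hs j hj).symm)
      have h3 : (((if G.Adj v i then 2 * D else 0 : ℕ)) : ℝ) =
          if G.Adj v i then 2 * (D : ℝ) else 0 := by
        split_ifs <;> push_cast <;> rfl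
      have h1' : (((np G S v).filter (fun z => s z.1 = t ∧ s z.2 = t)).card : ℝ) ≤
        ((np G S v).filter (fun z => s' z.1 = t ∧ s' z.2 = t)).card +
        (((if G.Adj v i then 2 * D else 0 : ℕ)) : ℝ) := by exact_mod_cast h1
      have h2' : (((np G S v).filter (fun z => s' z.1 = t ∧ s' z.2 = t)).card : ℝ) ≤
        ((np G S v).filter (fun z => s z.1 = t ∧ s z.2 = t)).card +
        (((if G.Adj v i then 2 * D else 0 : ℕ)) : ℝ) := by exact_mod_cast h2
      rw [h3] at h1' h2'
      rw [abs_le]
      constructor <;> linarith)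
    (4 * (D : ℝ) ^ 3) (m / (2 * K ^ 2))
    (by
      have h1 : ∀ i : X, (if G.Adj v i then 2 * (D : ℝ) else 0) ^ 2 =
          if G.Adj v i then 4 * (D : ℝ) ^ 2 else 0 := by
        intro i; split_ifs
        · ring
        · ring
      rw [Finset.sum_congr rfl (fun i _ => h1 i), ← Finset.sum_filter, Finset.sum_const,
        nsmul_eq_mul]
      have h2 : ((univ.filter (fun y => G.Adj v y)).card : ℝ) ≤ D := by exact_mod_cast hNv
      calc ((univ.filter (fun y => G.Adj v y)).card : ℝ) * (4 * (D : ℝ) ^ 2)
          ≤ D * (4 * (D : ℝ) ^ 2) := mul_le_mul_of_nonneg_right h2 (by positivity)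
        _ = 4 * (D : ℝ) ^ 3 := by ring)
    (by positivity) (by positivity)
  rw [hmean, mul_div_cancel_right₀ _ hcardpos.ne'] at hmc
  have e1 : m / (K : ℝ) ^ 2 - m / (2 * K ^ 2) = m / (2 * (K : ℝ) ^ 2) := by
    field_simp
    ring
  rw [e1] at hmc
  have h2 : (cnt (fun c : X → Fin K =>
      (((np G S v).filter (fun z => c z.1 = t ∧ c z.2 = t)).card : ℝ) < m / (2 * (K : ℝ) ^ 2)) : ℝ)
      ≤ ((univ.filter (fun c : X → Fin K =>
      (((np G S v).filter (fun z => c z.1 = t ∧ c z.2 = t)).card : ℝ) ≤
        m / (2 * (K : ℝ) ^ 2))).card : ℝ) := by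
    rw [cnt]
    have : (ev (fun c : X → Fin K =>
      (((np G S v).filter (fun z => c z.1 = t ∧ c z.2 = t)).card : ℝ) <
        m / (2 * (K : ℝ) ^ 2))).card ≤ (univ.filter (fun c : X → Fin K =>
      (((np G S v).filter (fun z => c z.1 = t ∧ c z.2 = t)).card : ℝ) ≤
        m / (2 * (K : ℝ) ^ 2))).card := by
      refine Finset.card_le_card fun s hs => ?_
      rw [mem_ev] at hs
      rw [mem_filter]
      exact ⟨mem_univ _, hs.le⟩
    exact_mod_cast this
  refine h2.trans (hmc.trans ?_)
  refine mul_le_mul_of_nonneg_right ?_ hcardpos.le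
  apply Real.exp_le_exp.2
  have h3 : ((D : ℝ) ^ 2 / 2 ^ b) ^ 2 ≤ m ^ 2 := pow_le_pow_left₀ (by positivity) hm 2
  have h4 : 1 / (2 ^ (2 * b + 5) * (K : ℝ) ^ 4) * D =
      ((D : ℝ) ^ 2 / 2 ^ b) ^ 2 / (4 * (K : ℝ) ^ 4) / (8 * (D : ℝ) ^ 3) := by
    have : (2 : ℝ) ^ (2 * b + 5) = (2 ^ b) ^ 2 * 32 := by
      rw [pow_add, mul_comm 2 b, pow_mul]; norm_num
    rw [this]
    field_simp
    ring
  have h5 : -((m / (2 * (K : ℝ) ^ 2)) ^ 2) / (2 * (4 * (D : ℝ) ^ 3)) =
      -(m ^ 2 / (4 * (K : ℝ) ^ 4) / (8 * (D : ℝ) ^ 3)) := by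
    field_simp
    ring
  rw [h5, h4]
  apply neg_le_neg
  gcongr

end Pool.Agent.K1H37.HYC
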